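import Pool.Agent.H29.FX.Targets

/-!
# Row ALG (MP_7ecdd4_nt): the algebra of towers
-/

set_option autoImplicit false

open Finset MvPolynomial

namespace Pool.Agent.H52.TFX

open Pool.Agent.H29.FX

private lemma alg_step {n : ℕ} (q : Pl n × Fin n) (L : Tw n) (j : Fin n) (f : Pl n) :
    TD (q :: L) j f = TD L q.2 q.1 * TD L j f - TD L j q.1 * TD L q.2 f := by
  change ((TD L q.2 q.1) • TD L j - (TD L j q.1) • TD L q.2) f = _
  rw [Derivation.sub_apply, Derivation.smul_apply, Derivation.smul_apply, smul_eq_mul,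
    smul_eq_mul]

private lemma alg_core {n : ℕ} (L : Tw n) (h : Gd L) :
    (∀ j ∈ TI L, ∀ k ∈ TI L, TD L j (X k) = if j = k then TJ L else 0) ∧
    (∀ j, j ∉ TI L → TD L j = 0) ∧ (∀ q ∈ L, ∀ j, TD L j q.1 = 0) ∧
    (TI L).card + L.length = n := by
  induction L with
  | nil =>
    refine ⟨?_, ?_, ?_, ?_⟩
    · intro j _ k _
      change pderiv j (X k) = if j = k then (1 : Pl n) else 0
      rw [pderiv_X]
      by_cases hjk : j = k
      · subst hjk
        simp
      · rw [if_neg hjk, Pi.single_eq_of_ne (Ne.symm hjk)]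
    · intro j hj
      exact absurd (Finset.mem_univ j) hj
    · intro q hq
      exact absurd hq List.not_mem_nil
    · change (univ : Finset (Fin n)).card + 0 = n
      simp
  | cons q L ih =>
    obtain ⟨hq, hL⟩ := h
    obtain ⟨h1, h2, h3, h4⟩ := ih hL
    refine ⟨?_, ?_, ?_, ?_⟩
    · intro j hj k hk
      have hj' : j ∈ (TI L).erase q.2 := hj
      have hk' : k ∈ (TI L).erase q.2 := hk
      rw [Finset.mem_erase] at hj' hk'
      rw [alg_step, h1 j hj'.2 k hk'.2, h1 q.2 hq k hk'.2, if_neg (Ne.symm hk'.1), mul_zero,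
        sub_zero]
      change _ = if j = k then TJ L * TD L q.2 q.1 else 0
      by_cases hjk : j = k
      · rw [if_pos hjk, if_pos hjk, mul_comm]
      · rw [if_neg hjk, if_neg hjk, mul_zero]
    · intro j hj
      have hj' : j ∉ (TI L).erase q.2 := hj
      rw [Finset.mem_erase, not_and_or, not_not] at hj'
      apply Derivation.ext
      intro f
      rw [alg_step]
      rcases hj' with hj' | hj'
      · subst hj'
        simp
      · rw [h2 j hj']
        simp
    · intro q' hq' j
      rw [alg_step]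
      rcases List.mem_cons.mp hq' with hq' | hq'
      · subst hq'
        ring
      · rw [h3 q' hq' j, h3 q' hq' q.2]
        simp
    · change ((TI L).erase q.2).card + (L.length + 1) = n
      rw [Finset.card_erase_of_mem hq]
      have hpos : 0 < (TI L).card := Finset.card_pos.mpr ⟨q.2, hq⟩
      omega

theorem pf_ALG (hDFM : T_DFM) : T_ALG := by
  intro n L h
  obtain ⟨h1, h2, h3, h4⟩ := alg_core L h
  refine ⟨h1, h2, h3, ?_, h4⟩
  intro G hG j hj
  rw [hDFM n (TD L j) G]
  rw [Finset.sum_eq_single j]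
  · rw [h1 j hj j hj, if_pos rfl, mul_comm]
  · intro v _ hv
    by_cases hvG : v ∈ G.vars
    · rw [h1 j hj v (hG hvG), if_neg (Ne.symm hv), mul_zero]
    · rw [pderiv_eq_zero_of_notMem_vars hvG, zero_mul]
  · intro hj'
    exact absurd (Finset.mem_univ j) hj'

end Pool.Agent.H52.TFX
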